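import Pool.Agent.Lib.MP_4d4569_co.CX.Red

namespace Pool.Agent.Results.MP_4d4569_co.CharZero

/-- Weighted three-fold additive energy of `N ≥ 2` points of a nondegenerate conic over any field
of characteristic zero: at most `C * log N * (∑ w ^ 2) ^ 3`, with an absolute constant `C`. -/
theorem result : ∃ C : ℝ, ∀ (K : Type) [Field K] [CharZero K] [DecidableEq K] (a b c d e f : K)
    (A : Finset (K × K)) (w : K × K → ℝ),
    4 * a * c * f + b * d * e - a * e ^ 2 - c * d ^ 2 - f * b ^ 2 ≠ 0 →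
    (∀ z ∈ A, a * z.1 ^ 2 + b * z.1 * z.2 + c * z.2 ^ 2 + d * z.1 + e * z.2 + f = 0) →
    2 ≤ A.card →
    ∑ z ∈ (Fintype.piFinset fun _ : Fin 6 => A).filter
        (fun z => z 0 + z 1 + z 2 = z 3 + z 4 + z 5), ∏ i, w (z i) ≤
      C * Real.log A.card * (∑ z ∈ A, w z ^ 2) ^ 3 :=
  E3CX.conic

end Pool.Agent.Results.MP_4d4569_co.CharZero
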