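import Pool.Agent.Lib.MP_4d4569_co.HE.InstB

open Pool.Agent.Lib.MP_4d4569_co.HE

namespace Pool.Agent.Results.MP_4d4569_co.CircleHigher

theorem result : ∃ C : ℝ, ∀ n : ℕ, 3 ≤ n → ∀ N : ℕ, ∃ A : Finset ℂ, (∀ z ∈ A, ‖z‖ = 1) ∧
    N ≤ A.card ∧ (A.card : ℝ) ^ (2 * (n : ℝ) - C * Real.log (Real.log n)) ≤
      ({p : (Fin n → ℂ) × (Fin n → ℂ) | (∀ i, p.1 i ∈ A) ∧ (∀ i, p.2 i ∈ A) ∧
        ∑ i, p.1 i = ∑ i, p.2 i}.ncard : ℕ) :=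
  partB

end Pool.Agent.Results.MP_4d4569_co.CircleHigher
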