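import Pool.Agent.Lib.MP_4d4569_co.E3Final

set_option autoImplicit false

namespace Pool.Agent.Results.MP_4d4569_co.SharpLog

/-- Weighted three-fold additive energy of `N ≥ 2` points of the plane in convex position:
at most `C * log N * (∑ w ^ 2) ^ 3`.  With `w = 1` this is `E₃(A) ≤ C * N ^ 3 * log N`. -/
theorem result : ∃ C : ℝ, ∀ (A : Finset (ℝ × ℝ)) (w : ℝ × ℝ → ℝ),
    (∀ a ∈ A, a ∉ convexHull ℝ ((A : Set (ℝ × ℝ)) \ {a})) → 2 ≤ A.card →
    ∑ a ∈ (Fintype.piFinset fun _ : Fin 6 => A).filter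
        (fun a => a 0 + a 1 + a 2 = a 3 + a 4 + a 5), ∏ i, w (a i) ≤
      C * Real.log A.card * (∑ a ∈ A, w a ^ 2) ^ 3 :=
  ⟨10 ^ 71, fun A w h hA => E3L.real_bound A w (fun a ha => E3L.support_line A a (h a ha)) hA⟩

end Pool.Agent.Results.MP_4d4569_co.SharpLog
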