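import Pool.Agent.Lib.MP_4d4569_co.W52.Main

set_option autoImplicit false

namespace Pool.Agent.Results.MP_4d4569_co.WeakEndpoint

/-- Exponential sums whose frequencies are in convex position at scale `1 / R` (each one has
Euclidean distance at least `1 / R` from the convex hull of the others): the weak sixth-power
bound on the square of side `R`, with an absolute constant. -/
theorem result : ∃ C : ℝ, ∀ (A : Finset (ℝ × ℝ)) (R : ℝ), 0 < R →
    (∀ a ∈ A, ∀ y ∈ convexHull ℝ ((A : Set (ℝ × ℝ)) \ {a}),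
      1 ≤ R ^ 2 * ((a.1 - y.1) ^ 2 + (a.2 - y.2) ^ 2)) →
    ∀ (c : ℝ × ℝ → ℂ) (b : ℝ), 0 < b →
      MeasureTheory.volume {x : ℝ × ℝ | x ∈ Set.Icc 0 R ×ˢ Set.Icc 0 R ∧ b ≤
        ‖∑ a ∈ A, c a * Complex.exp (2 * Real.pi * Complex.I * (a.1 * x.1 + a.2 * x.2 : ℝ))‖}
        ≤ ENNReal.ofReal (C * (∑ a ∈ A, ‖c a‖ ^ 2) ^ 3 * R ^ 2 / b ^ 6) :=
  E3W52.main

end Pool.Agent.Results.MP_4d4569_co.WeakEndpoint
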